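import Pool.Agent.Helper76.P13.StC

/-!
# Levels `13^n`, module E1B: even exponent, injectivity

After `Pool/Agent/Helper89/P11/M_E1B.lean`.
-/

set_option autoImplicit false

namespace Pool.Agent.Helper70.P13

open Pool.Agent.Helper76.P13
open Pool.Agent.Helper28.WK (SymP)
open Pool.Agent.Helper14.CV (Homog EqC act StFar ne_zero_of_det)

/-- the matrix `(a, 13b; 13c, d)` has determinant one -/
private def Hy (a b c d : ℤ) : Prop := a * d - 169 * b * c = 1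

/-- a diagonal entry is a unit -/
private lemma ut (j : ℕ) {a d b c : ℤ} (h : a * d - 169 * b * c = 1) :
    IsUnit (a : ZMod (13 ^ (j + 1))) := by
  rw [ZMod.coe_int_isUnit_iff_isCoprime]
  push_cast
  apply IsCoprime.pow_left
  exact ⟨-13 * (b * c), d, by linear_combination h⟩

/-- every matrix has coordinates -/
private lemma exPl (j : ℕ) {a b c d : ℤ} (h : Hy a b c d) :
    ∃ x y : ZMod (13 ^ (j + 1)), Pl13 1 a b c d x y := by
  unfold Hy at h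
  have ha := ut j h
  have hd := ut j (a := d) (d := a) (b := b) (c := c) (by linear_combination h)
  refine ⟨b * (a : ZMod (13 ^ (j + 1)))⁻¹, c * (d : ZMod (13 ^ (j + 1)))⁻¹, ?_, ?_, ?_⟩
  · norm_num
    exact h
  · rw [mul_assoc, ZMod.inv_mul_of_unit _ ha, mul_one]
  · rw [mul_assoc, ZMod.inv_mul_of_unit _ hd, mul_one]

/-- images of nonzero vectors -/
private lemma nz {a b c d : ℤ} (h : Hy a b c d) {u1 u2 : ℤ} (hu : u1 ≠ 0 ∨ u2 ≠ 0) :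
    a * u1 + 13 * b * u2 ≠ 0 ∨ 13 * c * u1 + d * u2 ≠ 0 := by
  refine ne_zero_of_det (a := a) (b := 13 * b) (c := 13 * c) (d := d) ?_ hu
  have e : a * d - 13 * b * (13 * c) = 1 := by
    unfold Hy at h
    linear_combination h
  rw [e]
  exact one_ne_zero

/-- the symmetries of the potential -/
private structure Inv (G : ℤ → ℤ → ℂ) : Prop where
  hom : Homog G
  st : ∀ x y z w : ℤ, (x ≠ 0 ∨ y ≠ 0) → (z ≠ 0 ∨ w ≠ 0) → G (-x) y - G (-z) w = G x y - G z w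
  sw : ∀ x y z w : ℤ, (x ≠ 0 ∨ y ≠ 0) → (z ≠ 0 ∨ w ≠ 0) →
    G y x - G w z = -(G x y - G z w)

/-- the two vectors have equal values for all matrices -/
private def W (G : ℤ → ℤ → ℂ) (u1 u2 v1 v2 : ℤ) : Prop :=
  (u1 ≠ 0 ∨ u2 ≠ 0) ∧ (v1 ≠ 0 ∨ v2 ≠ 0) ∧ ∀ a b c d : ℤ, Hy a b c d →
    G (a * u1 + 13 * b * u2) (13 * c * u1 + d * u2) = G (a * v1 + 13 * b * v2) (13 * c * v1 + d * v2)

section

variable {G : ℤ → ℤ → ℂ}

private lemma W.tr {u1 u2 v1 v2 w1 w2 : ℤ} (h : W G u1 u2 v1 v2) (h' : W G v1 v2 w1 w2) :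
    W G u1 u2 w1 w2 :=
  ⟨h.1, h'.2.1, fun a b c d hT => (h.2.2 a b c d hT).trans (h'.2.2 a b c d hT)⟩

private lemma W.sy {u1 u2 v1 v2 : ℤ} (h : W G u1 u2 v1 v2) : W G v1 v2 u1 u2 :=
  ⟨h.2.1, h.1, fun a b c d hT => (h.2.2 a b c d hT).symm⟩

/-- scaling -/
private lemma W.sc (hI : Inv G) {s1 s2 t1 t2 : ℤ} (h : W G s1 s2 t1 t2) (k l : ℤ)
    {u1 u2 v1 v2 : ℤ} (hs : k ≠ 0 ∧ l ≠ 0 ∧ s1 = k * u1 ∧ s2 = k * u2 ∧ t1 = l * v1 ∧
      t2 = l * v2) : W G u1 u2 v1 v2 := by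
  obtain ⟨hk, hl, rfl, rfl, rfl, rfl⟩ := hs
  obtain ⟨h1, h2, h3⟩ := h
  have hu : u1 ≠ 0 ∨ u2 ≠ 0 := by
    rcases h1 with h | h
    · exact Or.inl (right_ne_zero_of_mul h)
    · exact Or.inr (right_ne_zero_of_mul h)
  have hv : v1 ≠ 0 ∨ v2 ≠ 0 := by
    rcases h2 with h | h
    · exact Or.inl (right_ne_zero_of_mul h)
    · exact Or.inr (right_ne_zero_of_mul h)
  refine ⟨hu, hv, fun a b c d hT => ?_⟩
  have e := h3 a b c d hT
  have f1 := hI.hom k _ _ hk (nz hT hu)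
  have f2 := hI.hom l _ _ hl (nz hT hv)
  rw [← f1, ← f2]
  calc _ = _ := by congr 1 <;> ring
    _ = _ := e
    _ = _ := by congr 1 <;> ring

private lemma neq {x y : ℤ} (h : x ≠ 0 ∨ y ≠ 0) : -x ≠ 0 ∨ y ≠ 0 := by omega

private lemma swq' {x y : ℤ} (h : x ≠ 0 ∨ y ≠ 0) : -y ≠ 0 ∨ x ≠ 0 := by omega

private lemma swq {x y : ℤ} (h : x ≠ 0 ∨ y ≠ 0) : y ≠ 0 ∨ x ≠ 0 := by omega

/-- conjugation by `*` -/
private lemma W.st (hI : Inv G) {u1 u2 v1 v2 : ℤ} (h : W G u1 u2 v1 v2) :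
    W G (-u1) u2 (-v1) v2 := by
  refine ⟨neq h.1, neq h.2.1, fun a b c d hT => ?_⟩
  have hT' : Hy a (-b) (-c) d := by
    unfold Hy at hT ⊢
    linear_combination hT
  have e := hI.st _ _ _ _ (nz hT' h.1) (nz hT' h.2.1)
  rw [h.2.2 _ _ _ _ hT', sub_self] at e
  have e' := sub_eq_zero.1 e
  calc _ = _ := by congr 1 <;> ring
    _ = _ := e'
    _ = _ := by congr 1 <;> ring

/-- conjugation by `b` -/
private lemma W.sw (hI : Inv G) {u1 u2 v1 v2 : ℤ} (h : W G u1 u2 v1 v2) :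
    W G u2 u1 v2 v1 := by
  refine ⟨swq h.1, swq h.2.1, fun a b c d hT => ?_⟩
  have hT' : Hy d c b a := by
    unfold Hy at hT ⊢
    linear_combination hT
  have e := hI.sw _ _ _ _ (nz hT' h.1) (nz hT' h.2.1)
  rw [h.2.2 _ _ _ _ hT', sub_self, neg_zero] at e
  have e' := sub_eq_zero.1 e
  calc _ = _ := by congr 1 <;> ring
    _ = _ := e'
    _ = _ := by congr 1 <;> ring

/-- multiplication by a matrix on the right -/
private lemma W.rm {u1 u2 v1 v2 : ℤ} (h : W G u1 u2 v1 v2) (α β γ δ : ℤ)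
    (hm : α * δ - 169 * β * γ = 1) :
    W G (α * u1 + 13 * β * u2) (13 * γ * u1 + δ * u2) (α * v1 + 13 * β * v2)
      (13 * γ * v1 + δ * v2) := by
  refine ⟨nz hm h.1, nz hm h.2.1, fun a b c d hT => ?_⟩
  have hT' : Hy (a * α + 169 * b * γ) (a * β + b * δ) (c * α + d * γ) (169 * c * β + d * δ) := by
    unfold Hy at hT ⊢
    linear_combination (α * δ - 169 * β * γ) * hT + hm
  have e := h.2.2 _ _ _ _ hT'
  calc _ = _ := by congr 1 <;> ring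
    _ = _ := e
    _ = _ := by congr 1 <;> ring

/-- absolute values of the cusps -/
private def Cu : List (ℕ × ℕ) :=
  [(1, 0), (0, 1), (1, 1), (1, 2), (2, 1), (3, 1), (1, 3), (3, 2), (4, 3), (4, 1), (1, 4),
   (5, 4), (5, 1), (5, 3), (1, 5), (5, 2), (1, 6), (6, 5), (6, 1), (7, 1), (7, 3), (7, 2),
   (9, 4), (2, 9), (2, 11), (3, 16)]

private lemma W.ng (hI : Inv G) {x y : ℤ} (h : W G 1 0 x y) : W G 1 0 (-x) (-y) :=
  h.sc hI 1 (-1) ⟨by norm_num, by norm_num, by norm_num, by norm_num, by ring, by ring⟩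

private lemma W.mi (hI : Inv G) {x y : ℤ} (h : W G 1 0 x y) : W G 1 0 (-x) y :=
  (h.st hI).sc hI (-1) 1 ⟨by norm_num, by norm_num, by norm_num, by norm_num, by ring, by ring⟩

/-- the cusps are equivalent to `∞` -/
private lemma cusps (hI : Inv G) (q1_1 : W G 1 0 1 1) (q2_1 : W G 1 0 2 1) (q4_1 : W G 1 0 4 1)
    (q5_1 : W G 1 0 5 1) (q6_1 : W G 1 0 6 1) (g6 : W G 3 2 1 1) (g7 : W G 3 1 5 2)
    (g8 : W G 4 3 1 1) (g9 : W G 7 2 3 1) (g10 : W G 7 3 2 1) (g11 : W G 5 2 19 8) :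
    ∀ c ∈ Cu, W G 1 0 (c.1 : ℤ) (c.2 : ℤ) := by
  have q1_0 : W G 1 0 1 0 := q1_1.tr q1_1.sy
  have q3_2 : W G 1 0 3 2 := q1_1.tr g6.sy
  have q4_3 : W G 1 0 4 3 := q1_1.tr g8.sy
  have q7_3 : W G 1 0 7 3 := q2_1.tr g10.sy
  have a1 : W G 9 2 4 1 :=
    ((((q5_1.sy.tr q4_1).sw hI).rm (-56) 1 (-1) 3 (by norm_num)).sc hI 1 (-1) (by norm_num))
  have a2 : W G 7 3 19 8 :=
    ((a1.st hI).rm 31 11 1 60 (by norm_num)).sc hI 1 1 (by norm_num)
  have q19_8 : W G 1 0 19 8 := q7_3.tr a2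
  have q5_2 : W G 1 0 5 2 := q19_8.tr g11.sy
  have q3_1 : W G 1 0 3 1 := q5_2.tr g7.sy
  have q7_2 : W G 1 0 7 2 := q3_1.tr g9.sy
  have a3 : W G 0 1 1 1 := q1_1.sw hI
  have q0_1 : W G 1 0 0 1 := q1_1.tr a3.sy
  have q1_2 : W G 1 0 1 2 := (q0_1.sy.tr q2_1).sw hI
  have q1_3 : W G 1 0 1 3 := (q0_1.sy.tr q3_1).sw hI
  have q1_4 : W G 1 0 1 4 := (q0_1.sy.tr q4_1).sw hI
  have q1_5 : W G 1 0 1 5 := (q0_1.sy.tr q5_1).sw hI
  have q1_6 : W G 1 0 1 6 := (q0_1.sy.tr q6_1).sw hI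
  have a4 : W G 1 0 (-7) 1 := (q6_1.rm 1 (-1) 0 1 (by norm_num)).sc hI 1 1 (by norm_num)
  have q7_1 : W G 1 0 7 1 := (a4.mi hI).sc hI 1 1 (by norm_num)
  have a5 : W G 4 3 5 4 :=
    (((((q1_1.mi hI).sy.tr (q3_2.mi hI)).sw hI).rm (-17) (-1) (-1) (-10) (by norm_num)).sc hI
      (-1) 1 (by norm_num))
  have q5_4 : W G 1 0 5 4 := q4_3.tr a5
  have a6 : W G 3 2 5 3 :=
    ((((q3_2.sy.tr q2_1).sw hI).rm 21 (-1) 1 (-8) (by norm_num)).sc hI 1 (-1) (by norm_num))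
  have q5_3 : W G 1 0 5 3 := q3_2.tr a6
  have a7 : W G (-2) 1 (-9) 4 :=
    (((((q2_1.mi hI).sy.tr (q5_2.mi hI)).sw hI).rm 28 1 (-1) (-6) (by norm_num)).sc hI
      (-1) 1 (by norm_num))
  have q9_4 : W G 1 0 9 4 := (((q2_1.mi hI).tr a7).mi hI).sc hI 1 1 (by norm_num)
  have a8 : W G (-1) 1 (-6) 5 :=
    (((((q7_2.mi hI).sy.tr (q4_1.mi hI)).sw hI).rm (-46) (-1) 3 11 (by norm_num)).sc hI
      1 (-1) (by norm_num))
  have q6_5 : W G 1 0 6 5 := (((q1_1.mi hI).tr a8).mi hI).sc hI 1 1 (by norm_num)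
  have a9 : W G (-1) 4 (-2) 9 :=
    ((((q4_1.mi hI).sy.tr (q5_1.mi hI)).rm (-3) (-1) 1 56 (by norm_num)).sc hI
      1 (-1) (by norm_num))
  have q2_9 : W G 1 0 2 9 := (((q1_4.mi hI).tr a9).mi hI).sc hI 1 1 (by norm_num)
  have a10 : W G (-1) 6 (-2) 11 :=
    ((((q5_4.sy.tr q6_5).sw hI).rm 16 (-1) (-7) 74 (by norm_num)).sc hI 1 (-1) (by norm_num))
  have q2_11 : W G 1 0 2 11 := (((q1_6.mi hI).tr a10).mi hI).sc hI 1 1 (by norm_num)
  have a11 : W G (-1) 5 (-3) 16 :=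
    (((((q1_5.mi hI).sy.tr (q2_11.mi hI)).sw hI).rm 5 2 (-2) (-135) (by norm_num)).sc hI
      1 (-1) (by norm_num))
  have q3_16 : W G 1 0 3 16 := (((q1_5.mi hI).tr a11).mi hI).sc hI 1 1 (by norm_num)
  intro c hc
  simp only [Cu, List.mem_cons, List.not_mem_nil, or_false] at hc
  rcases hc with rfl | rfl | rfl | rfl | rfl | rfl | rfl | rfl | rfl | rfl | rfl | rfl | rfl |
    rfl | rfl | rfl | rfl | rfl | rfl | rfl | rfl | rfl | rfl | rfl | rfl | rfl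
  all_goals simp only [Nat.cast_one, Nat.cast_zero, Nat.cast_ofNat]; assumption

private lemma abs_cusp (hI : Inv G) (h : ∀ c ∈ Cu, W G 1 0 (c.1 : ℤ) (c.2 : ℤ)) {x y : ℤ}
    (hc : (x.natAbs, y.natAbs) ∈ Cu) : W G 1 0 x y := by
  have e : W G 1 0 (x.natAbs : ℤ) (y.natAbs : ℤ) := h _ hc
  rcases Int.natAbs_eq x with hx | hx <;> rcases Int.natAbs_eq y with hy | hy <;> rw [hx, hy]
  · exact e
  · have := (e.ng hI).mi hI
    rwa [neg_neg] at this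
  · exact e.mi hI
  · exact e.ng hI

end

set_option maxRecDepth 100000 in
private lemma ok : ∀ t ∈ Pool.Agent.Helper76.P13.LE,
    (t.1.natAbs, t.2.2.1.natAbs) ∈ Cu ∧ (t.2.1.natAbs, t.2.2.2.natAbs) ∈ Cu := by decide

/-- Module E1B. -/
theorem hE1B : StHE1b := by
  intro he _ hrep hfar k G hk hB hz
  obtain ⟨j, rfl⟩ : ∃ j, k = j + 2 := ⟨k - 2, by omega⟩
  obtain ⟨hS, -, -, hW, hT⟩ := hB
  have hI : Inv G := by
    refine ⟨hS.1, ?_, ?_⟩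
    · intro x y z w h1 h2
      have e := hT.diff h1 h2
      simp only [act] at e
      rw [← e]
      congr 2 <;> ring
    · intro x y z w h1 h2
      have e := hW.diff h1 h2
      have f := hT.diff (swq' h1) (swq' h2)
      simp only [act, Pi.neg_apply] at e f
      have e1 : ∀ s t : ℤ, G (-1 * (-t) + 0 * s) (0 * (-t) + 1 * s) = G t s := by
        intro s t; congr 1 <;> ring
      have e2 : ∀ s t : ℤ, G (0 * s + -1 * t) (1 * s + 0 * t) = G (-t) s := by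
        intro s t; congr 1 <;> ring
      rw [e1, e1] at f
      rw [e2, e2] at e
      rw [f, e]
      ring
  have key : ∀ u1 u2 v1 v2 : ℤ, (u1 ≠ 0 ∨ u2 ≠ 0) → (v1 ≠ 0 ∨ v2 ≠ 0) →
      (∀ x y : ZMod (13 ^ (j + 1)), edge13 1 u1 u2 v1 v2 G x y = 0) → W G u1 u2 v1 v2 := by
    intro u1 u2 v1 v2 hu hv h0
    refine ⟨hu, hv, fun a b c d hg => ?_⟩
    obtain ⟨x, y, hp⟩ := exPl j hg
    have e := he ℂ _ 1 (j + 1) (j + 1) G hS u1 u2 v1 v2 hu hv x y a b c d hp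
    rw [h0 x y, pow_one] at e
    exact (sub_eq_zero.1 e.symm)
  have h1 : W G 1 0 1 1 := key 1 0 1 1 (by norm_num) (by norm_num) fun x y => (hz x y).1.1
  have h2 : W G 1 0 2 1 := key 1 0 2 1 (by norm_num) (by norm_num) fun x y => (hz x y).1.2.1
  have h3 : W G 1 0 4 1 := key 1 0 4 1 (by norm_num) (by norm_num) fun x y => (hz x y).1.2.2.1
  have h4 : W G 1 0 5 1 := key 1 0 5 1 (by norm_num) (by norm_num) fun x y => (hz x y).1.2.2.2
  have h5 : W G 1 0 6 1 := key 1 0 6 1 (by norm_num) (by norm_num) fun x y => (hz x y).2.1.1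
  have h6 : W G 3 2 1 1 := key 3 2 1 1 (by norm_num) (by norm_num) fun x y => (hz x y).2.1.2.1
  have h7 : W G 3 1 5 2 := key 3 1 5 2 (by norm_num) (by norm_num) fun x y => (hz x y).2.1.2.2.1
  have h8 : W G 4 3 1 1 := key 4 3 1 1 (by norm_num) (by norm_num) fun x y => (hz x y).2.1.2.2.2
  have h9 : W G 7 2 3 1 := key 7 2 3 1 (by norm_num) (by norm_num) fun x y => (hz x y).2.2.1
  have h10 : W G 7 3 2 1 := key 7 3 2 1 (by norm_num) (by norm_num) fun x y => (hz x y).2.2.2.1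
  have h11 : W G 5 2 19 8 := key 5 2 19 8 (by norm_num) (by norm_num) fun x y => (hz x y).2.2.2.2
  have hC := cusps hI h1 h2 h3 h4 h5 h6 h7 h8 h9 h10 h11
  refine hfar ℂ _ G hS.1 fun p q r s h => ?_
  obtain ⟨m, hm, α, β, γ, δ, hd, e1, e2, e3, e4⟩ := hrep.1.2 p q r s h
  obtain ⟨f2, f3⟩ := ok m hm
  have e := ((abs_cusp hI hC f2).sy.tr (abs_cusp hI hC f3)).2.2 α β γ δ hd
  rw [e1, e2, e3, e4]
  exact e

end Pool.Agent.Helper70.P13
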